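import Pool.Agent.Q75.EF.All

/-!
# A non-traceable graph with connected EF1-outer allocations for all common additive profiles

The graph `Gs` has ten vertices: a clique on `{5,6,7,8,9}`, a pendant vertex `0` at `5`, two
vertices `1, 2` adjacent exactly to `6, 7`, and two vertices `3, 4` adjacent exactly to `8, 9`.
It is connected and has no Hamiltonian path, but for every number `n ≥ 1` of agents and every
common additive valuation it has a connected EF1-outer allocation.
-/

namespace Pool.Agent.Results.MP_7d34d8_co.CommonAdditive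

open Pool.Agent.Q75.EF

theorem result : ∃ G : SimpleGraph (Fin 10), G.Connected ∧ ¬ IsTraceable G ∧
    UniversallyGuarantees G IsCommonAdditive := by
  refine ⟨Gs, Gs_connected, Gs_not_traceable, ?_⟩
  intro n hn v hv
  obtain ⟨w, hw, hv⟩ := hv
  have main : Good n w := by
    by_cases h10 : 10 ≤ n
    · obtain ⟨A, hA1, hA2⟩ : ∃ A : Fin n → Finset (Fin 10),
          (∀ (i : Fin n) (h : (i : ℕ) < 10), A i = {⟨i, h⟩}) ∧
          (∀ i : Fin n, ¬ (i : ℕ) < 10 → A i = ∅) :=
        ⟨fun i => if h : (i : ℕ) < 10 then {⟨i, h⟩} else ∅, fun i h => dif_pos h,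
          fun i h => dif_neg h⟩
      have h0 : ∀ i, 0 ≤ ∑ x ∈ A i, w x := fun i => Finset.sum_nonneg fun x _ => hw x
      refine ⟨A, ⟨?_, ?_⟩, ?_, ?_⟩
      · intro i j hij
        by_cases h1 : (i : ℕ) < 10
        · by_cases h2 : (j : ℕ) < 10
          · rw [hA1 i h1, hA1 j h2, Finset.disjoint_singleton]
            intro e
            exact hij (Fin.ext (by simpa using congrArg Fin.val e))
          · rw [hA2 j h2]; simp
        · rw [hA2 i h1]; simp
      · intro x
        refine ⟨⟨x, lt_of_lt_of_le x.2 h10⟩, ?_⟩
        rw [hA1 ⟨x, lt_of_lt_of_le x.2 h10⟩ x.2]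
        simp
      · intro i hne
        by_cases h1 : (i : ℕ) < 10
        · rw [hA1 i h1]
          exact conn_singleton _
        · rw [hA2 i h1] at hne
          simp at hne
      · intro i j
        by_cases h2 : (j : ℕ) < 10
        · right
          refine ⟨⟨j, h2⟩, ⟨?_, ?_⟩, ?_⟩
          · rw [hA1 j h2]; simp
          · intro hne
            rw [hA1 j h2] at hne
            simp at hne
          · rw [hA1 j h2]
            simpa using h0 i
        · left
          rw [hA2 j h2]
          simpa using h0 i
    · by_cases h1 : n = 1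
      · subst h1
        refine ⟨fun _ => Finset.univ, ⟨?_, ?_⟩, ?_, ?_⟩
        · intro i j hij
          exact absurd (Subsingleton.elim i j) hij
        · intro x
          exact ⟨0, Finset.mem_univ _⟩
        · intro i _
          have hu : ∀ x ∈ (Finset.univ : Finset (Fin 10)), ¬ 5 ≤ x →
              ∃ y ∈ (Finset.univ : Finset (Fin 10)), 5 ≤ y ∧ Gs.Adj x y := by decide
          exact conn_of_core _ ⟨5, by simp, le_rfl⟩ hu
        · intro i j
          exact Or.inl le_rfl
      · have h2 : n = 2 ∨ n = 3 ∨ n = 4 ∨ n = 5 ∨ n = 6 ∨ n = 7 ∨ n = 8 ∨ n = 9 := by omega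
        rcases h2 with rfl | rfl | rfl | rfl | rfl | rfl | rfl | rfl
        · exact good2 w hw
        · exact good3 w hw
        · exact good4 w hw
        · exact good5 w hw
        · exact good6 w hw
        · exact good7 w hw
        · exact good8 w hw
        · exact good9 w hw
  obtain ⟨A, hA, hconn, hef⟩ := main
  refine ⟨A, hA, hconn, ?_⟩
  intro i j
  rcases hef i j with h | ⟨o, ho, hle⟩
  · left
    rw [hv, hv]
    exact h
  · right
    exact ⟨o, ho, by rw [hv, hv]; exact hle⟩

end Pool.Agent.Results.MP_7d34d8_co.CommonAdditive
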